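import Mathlib
import Pool.Agent.H23.Nil1

/-! A basic ring that is not F-noetherian: a Golod–Shafarevich algebra all of whose matrix rings
are algebraic. -/

namespace Pool.Agent.Results.MP_42b5d3_al.Basic

/-- The basic condition for left `S`-modules. -/
def LeftBasic (S : Type) [Ring S] : Prop :=
  ∀ (M A : Type) [AddCommGroup M] [Module S M] [AddCommGroup A] [Module S A], Module.Finite S M →
    ∀ f i : A →ₗ[S] M, Function.Surjective f → Function.Injective i → Function.Bijective f

/-- Basic rings: the condition for left modules and for right modules. -/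
def IsBasic (R : Type) [Ring R] : Prop := LeftBasic R ∧ LeftBasic Rᵐᵒᵖ

/-- Every finite subset lies in a left and right noetherian subring. -/
def FNoetherian (R : Type) [Ring R] : Prop :=
  ∀ s : Finset R, ∃ S : Subring R, (s : Set R) ⊆ S ∧ IsNoetherianRing S ∧ IsNoetherianRing Sᵐᵒᵖ

open Matrix Pool.Agent.H23.Nil

theorem fd {F V : Type*} [Field F] [AddCommGroup V] [Module F V] [Module.Finite F V]
    (μ : V →ₗ[F] V) (U : Submodule F V) (h : U.comap μ ≤ U) : U ≤ U.comap μ := by
  refine (Submodule.eq_of_le_of_finrank_le h ?_).ge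
  have h1 := LinearMap.finrank_le_finrank_of_injective (f := (U.comap μ).mapQ U μ le_rfl)
    (LinearMap.ker_eq_bot.1 (by rw [Submodule.ker_mapQ, Submodule.mkQ_map_self]))
  have h2 := Submodule.finrank_quotient_add_finrank U
  have h3 := Submodule.finrank_quotient_add_finrank (U.comap μ)
  omega

theorem leftBasic {F S : Type} [Field F] [Ring S] [Algebra F S]
    (H : ∀ (d : ℕ) (P : Matrix (Fin d) (Fin d) S), IsIntegral F P) : LeftBasic S := by
  intro M A _ _ _ _ hM f i hf hi
  refine ⟨(injective_iff_map_eq_zero f).2 fun x hx => ?_, hf⟩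
  obtain ⟨d, π, hπ⟩ := Module.Finite.exists_fin' S M
  choose g hg using hf
  let a : Fin (d + 1) → A := Fin.cons x fun k => g (π (Pi.single k 1))
  let σ := Fintype.linearCombination S a
  have hσ : ∀ v, σ v = ∑ k, v k • a k := fun v => Fintype.linearCombination_apply S a v
  have hs : Function.Surjective (f ∘ₗ σ) := fun m => by
    obtain ⟨v, rfl⟩ := hπ m
    refine ⟨Fin.cons 0 v, ?_⟩
    rw [LinearMap.comp_apply, hσ, Fin.sum_univ_succ, LinearMap.pi_apply_eq_sum_univ π v]
    simp only [a, Fin.cons_zero, zero_smul, zero_add, Fin.cons_succ, map_sum, map_smul, hg]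
    refine Finset.sum_congr rfl fun k _ => ?_
    congr 2
    funext j
    simp [Pi.single_apply, eq_comm]
  choose P hP using fun k => hs (i (a k))
  let Q : Matrix (Fin (d + 1)) (Fin (d + 1)) S := Matrix.of P
  have hQ : ∀ v, (f ∘ₗ σ) (v ᵥ* Q) = i (σ v) := fun v => by
    rw [vecMul_eq_sum, map_sum, hσ, map_sum]
    exact Finset.sum_congr rfl fun k _ => by rw [map_smul, map_smul]; exact congrArg _ (hP k)
  let v : Fin (d + 1) → S := Pi.single 0 1
  have hv : σ v = x := by rw [hσ, Fin.sum_univ_succ]; simp [v, a]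
  let W := Algebra.adjoin F {Q}
  haveI : Module.Finite F W := Algebra.finite_adjoin_simple_of_isIntegral (H _ Q)
  let q : W := ⟨Q, Algebra.self_mem_adjoin_singleton F Q⟩
  let U : Submodule F W :=
    { carrier := {w | (f ∘ₗ σ) (v ᵥ* (w : Matrix _ _ S)) = 0}
      zero_mem' := by simp
      add_mem' := fun {w w'} h h' => by
        simp only [Set.mem_ofPred_eq, Subalgebra.coe_add, vecMul_add, map_add] at h h' ⊢
        rw [h, h', add_zero]
      smul_mem' := fun c w h => by
        simp only [Set.mem_ofPred_eq, Subalgebra.coe_smul] at h ⊢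
        rw [vecMul_smul, ← algebraMap_smul S c, map_smul, h, smul_zero] }
  have h1 := fd (LinearMap.mulRight F q) U (fun w hw => by
    have h2 : (f ∘ₗ σ) (v ᵥ* ((w : Matrix _ _ S) * Q)) = 0 := hw
    rw [← vecMul_vecMul, hQ, map_eq_zero_iff i hi] at h2
    show f (σ _) = 0
    rw [h2, map_zero]) (x := 1) (by
      show f (σ (v ᵥ* 1)) = 0
      rw [vecMul_one, hv, hx])
  have h2 : (f ∘ₗ σ) (v ᵥ* (1 * Q)) = 0 := h1
  rwa [one_mul, hQ, hv, map_eq_zero_iff i hi] at h2

theorem levitzki {F R : Type} [Field F] [Ring R] [Algebra F R] [IsNoetherianRing R] (J : Ideal R)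
    [J.IsTwoSided] (hJ : ∀ x ∈ J, IsNilpotent x) : ∃ n, (J.restrictScalars F) ^ n = ⊥ := by
  obtain ⟨N, ⟨hN2, hNJ, n, hn⟩, hmax⟩ := (wellFounded_gt (α := Ideal R)).has_min
    {N | N.IsTwoSided ∧ N ≤ J ∧ ∃ n, (N.restrictScalars F) ^ n = ⊥}
    ⟨⊥, inferInstance, bot_le, 1, by simp⟩
  by_cases hJN : J ≤ N
  · exact ⟨n, by rw [le_antisymm hJN hNJ, hn]⟩
  exfalso
  let l : R → Ideal R := fun x => Submodule.comap (LinearMap.toSpanSingleton R R x) N
  have hl : ∀ x y, y ∈ l x ↔ y * x ∈ N := fun _ _ => Iff.rfl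
  obtain ⟨_, ⟨a, ⟨haJ, haN⟩, rfl⟩, hamax⟩ := (wellFounded_gt (α := Ideal R)).has_min
    (l '' {x | x ∈ J ∧ x ∉ N}) (Set.Nonempty.image _ (SetLike.not_le_iff_exists.1 hJN))
  have key : ∀ r, a * r * a ∈ N := by
    intro r
    obtain ⟨k, hk⟩ := hJ _ (J.mul_mem_right r haJ)
    have h1 : (a * r) ^ (k + 1) ∈ N := by rw [pow_succ, hk, zero_mul]; exact N.zero_mem
    clear hk
    induction k with
    | zero => exact N.mul_mem_right a (by simpa using h1)
    | succ k ih =>
      by_cases h2 : (a * r) ^ (k + 1) ∈ N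
      · exact ih h2
      · have h3 : l a ≤ l ((a * r) ^ (k + 1)) := fun y hy => by
          rw [hl, pow_succ', ← mul_assoc, ← mul_assoc]
          exact N.mul_mem_right _ (N.mul_mem_right _ hy)
        have h4 := h3.eq_of_not_lt (hamax _ ⟨_, ⟨by
          rw [pow_succ']; exact J.mul_mem_right _ (J.mul_mem_right r haJ), h2⟩, rfl⟩)
        rw [← hl, h4, hl, ← pow_succ']
        exact h1
  let B : Ideal R := Ideal.span {u | ∃ b, u = a * b}
  haveI hB : B.IsTwoSided := ⟨fun {x} b hx => by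
    induction hx using Submodule.span_induction with
    | mem u hu => obtain ⟨c, rfl⟩ := hu; exact Ideal.subset_span ⟨c * b, mul_assoc _ _ _⟩
    | zero => rw [zero_mul]; exact B.zero_mem
    | add u v _ _ hu hv => rw [add_mul]; exact B.add_mem hu hv
    | smul c u _ hu => rw [smul_mul_assoc]; exact B.smul_mem c hu⟩
  have hBB : ∀ x ∈ B, ∀ y ∈ B, x * y ∈ N := by
    intro x hx y hy
    induction hx using Submodule.span_induction with
    | mem u hu =>
      obtain ⟨c, rfl⟩ := hu
      induction hy using Submodule.span_induction generalizing c with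
      | mem v hv => obtain ⟨e, rfl⟩ := hv; rw [← mul_assoc]; exact N.mul_mem_right _ (key c)
      | zero => rw [mul_zero]; exact N.zero_mem
      | add u v _ _ hu hv => rw [mul_add]; exact N.add_mem (hu c) (hv c)
      | smul e u _ hu => rw [smul_eq_mul, ← mul_assoc, mul_assoc a]; exact hu _
    | zero => rw [zero_mul]; exact N.zero_mem
    | add u v _ _ hu hv => rw [add_mul]; exact N.add_mem hu hv
    | smul c u _ hu => rw [smul_mul_assoc]; exact N.smul_mem c hu
  refine hmax (N ⊔ B) ⟨⟨fun {x} b hx => ?_⟩, sup_le hNJ (Ideal.span_le.2 ?_), 2 * n, ?_⟩ ?_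
  · obtain ⟨u, hu, v, hv, rfl⟩ := Submodule.mem_sup.1 hx
    rw [add_mul]
    exact Submodule.add_mem_sup (N.mul_mem_right _ hu) (B.mul_mem_right _ hv)
  · rintro _ ⟨b, rfl⟩
    exact J.mul_mem_right b haJ
  · rw [pow_mul, eq_bot_iff, ← hn]
    refine pow_le_pow_left' ?_ n
    rw [pow_two, Submodule.mul_le]
    intro x hx y hy
    obtain ⟨u, hu, v, hv, rfl⟩ := Submodule.mem_sup.1 hx
    obtain ⟨u', hu', v', hv', rfl⟩ := Submodule.mem_sup.1 hy
    rw [add_mul, mul_add v]
    exact N.add_mem (N.mul_mem_right _ hu) (N.add_mem (N.mul_mem_left _ hu') (hBB _ hv _ hv'))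
  · exact lt_of_le_of_ne le_sup_left fun h => haN (h ▸ Submodule.mem_sup_right
      (Ideal.subset_span ⟨1, (mul_one a).symm⟩))

abbrev K := ZMod 2

theorem exists_ideal : ∃ I : Ideal (T K), I.IsTwoSided ∧ ¬ Module.Finite K (T K ⧸ I) ∧
    ∀ (d : ℕ) (X : Matrix (Fin d) (Fin d) (T K)), (∀ s t, ep K (X s t) = 0) →
      ∃ n, ∀ s t, (X ^ n) s t ∈ I := by
  classical
  have : Countable (T K) := Cardinal.mk_le_aleph0_iff.1
    ((FreeAlgebra.cardinalMk_le_max K (Fin 3)).trans (by simp))
  haveI : ∀ d, Countable (Matrix (Fin d) (Fin d) (T K)) := fun d =>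
    inferInstanceAs (Countable (Fin d → Fin d → T K))
  obtain ⟨c, hc⟩ := exists_injective_nat
    (Σ d : ℕ, {X : Matrix (Fin d) (Fin d) (T K) // ∀ s t, ep K (X s t) = 0} × Fin d × Fin d)
  let N := fun (d : ℕ) (X : {X : Matrix (Fin d) (Fin d) (T K) // ∀ s t, ep K (X s t) = 0}) =>
    (Finset.univ.sup fun p : Fin d × Fin d => c ⟨d, X, p⟩) + 2
  let r : ℕ → T K := Function.extend c (fun e => (e.2.1.1 ^ N e.1 e.2.1) e.2.2.1 e.2.2.2) 0
  have hpow : ∀ (d : ℕ) (X : Matrix (Fin d) (Fin d) (T K)), (∀ s t, ep K (X s t) = 0) →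
      ∀ n s t, (X ^ n) s t ∈ P K n := fun d X hX n => by
    induction n with
    | zero => exact fun _ _ => Submodule.mem_top
    | succ n ih =>
      intro s t
      rw [pow_succ', Matrix.mul_apply]
      exact Submodule.sum_mem _ fun u _ =>
        P_mul 1 n _ _ (mem_P.2 ⟨hX s u, fun _ => Submodule.mem_top⟩) (ih u t)
  refine ⟨_, ⟨fun {x} b hx => ?_⟩, gs r fun j => ?_, fun d X hX => ⟨N d ⟨X, hX⟩, fun s t =>
    Ideal.subset_span ⟨c ⟨d, ⟨X, hX⟩, s, t⟩, 1, by
      rw [mul_one]; symm; exact hc.extend_apply _ _ _⟩⟩⟩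
  · induction hx using Submodule.span_induction with
    | mem u hu => obtain ⟨j, c, rfl⟩ := hu; exact Ideal.subset_span ⟨j, c * b, mul_assoc _ _ _⟩
    | zero => rw [zero_mul]; exact Submodule.zero_mem _
    | add u v _ _ hu hv => rw [add_mul]; exact Submodule.add_mem _ hu hv
    | smul c u _ hu => rw [smul_mul_assoc]; exact Submodule.smul_mem _ c hu
  · by_cases h : ∃ e, c e = j
    · obtain ⟨⟨d, X, p⟩, rfl⟩ := h
      rw [show r (c ⟨d, X, p⟩) = _ from hc.extend_apply _ _ _]
      exact P_anti (Nat.add_le_add_right (Finset.le_sup (f := fun p : Fin d × Fin d => c ⟨d, X, p⟩)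
        (Finset.mem_univ p)) 2) (hpow d X.1 X.2 _ _ _)
    · rw [show r j = _ from Function.extend_apply' _ _ _ h]
      exact Submodule.zero_mem _

theorem result : ∃ (R : Type) (_ : Ring R), IsBasic R ∧ ¬ FNoetherian R := by
  classical
  obtain ⟨I, hI, hfin, hnil⟩ := exists_ideal
  let π := Ideal.Quotient.mkₐ K I
  have hπ : Function.Surjective π := Ideal.Quotient.mkₐ_surjective K I
  have H : ∀ (d : ℕ) (Q : Matrix (Fin d) (Fin d) (T K ⧸ I)), IsIntegral K Q := by
    intro d Q
    obtain ⟨X, rfl⟩ : ∃ X, π.mapMatrix X = Q := by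
      choose g hg using hπ
      exact ⟨Q.map g, by ext s t; exact hg _⟩
    let g := ((ep K).mapMatrix X).charpoly
    have h1 : (ep K).mapMatrix (Polynomial.aeval X g) = 0 := by
      rw [← Polynomial.aeval_algHom_apply]; exact aeval_self_charpoly _
    obtain ⟨n, hn⟩ := hnil d (Polynomial.aeval X g) fun s t => congrFun (congrFun h1 s) t
    refine ⟨g ^ n, (charpoly_monic _).pow n, ?_⟩
    rw [← Polynomial.aeval_def, Polynomial.aeval_algHom_apply, map_pow]
    ext s t
    exact Ideal.Quotient.eq_zero_iff_mem.2 (hn s t)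
  refine ⟨T K ⧸ I, inferInstance, ⟨leftBasic H, leftBasic (F := K) fun d Q => ?_⟩, fun h => ?_⟩
  · obtain ⟨p, hp, h⟩ := H d (AlgEquiv.mopMatrix (R := K) Q).unop
    refine ⟨p, hp, (AlgEquiv.mopMatrix (R := K)).injective ?_⟩
    rw [← Polynomial.aeval_def] at h ⊢
    rw [← Polynomial.aeval_algHom_apply, ← MulOpposite.op_unop (AlgEquiv.mopMatrix Q),
      Polynomial.aeval_op_apply, h, map_zero, MulOpposite.op_zero]
  · let x : Fin 3 → T K ⧸ I := fun i => π (FreeAlgebra.ι K i)
    obtain ⟨S, hS, hN, -⟩ := h (Finset.univ.image x)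
    have hS' : ∀ t, π t ∈ S := fun t => by
      induction t using FreeAlgebra.induction with
      | grade0 r => rw [AlgHom.commutes, ← ZMod.natCast_zmod_val r, map_natCast]; exact natCast_mem S _
      | grade1 i => exact hS (by simp [x])
      | mul a b ha hb => rw [map_mul]; exact S.mul_mem ha hb
      | add a b ha hb => rw [map_add]; exact S.add_mem ha hb
    haveI : IsNoetherianRing (T K ⧸ I) := isNoetherianRing_of_surjective S _ S.subtype fun y => by
      obtain ⟨t, rfl⟩ := hπ y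
      exact ⟨⟨_, hS' t⟩, rfl⟩
    let J : Ideal (T K ⧸ I) :=
      { carrier := {y | ∃ t, ep K t = 0 ∧ π t = y}
        zero_mem' := ⟨0, map_zero _, map_zero _⟩
        add_mem' := by
          rintro _ _ ⟨t, ht, rfl⟩ ⟨u, hu, rfl⟩
          exact ⟨t + u, by rw [map_add, ht, hu, add_zero], map_add _ _ _⟩
        smul_mem' := by
          rintro c _ ⟨t, ht, rfl⟩
          obtain ⟨u, rfl⟩ := hπ c
          exact ⟨u * t, by rw [map_mul, ht, mul_zero], map_mul _ _ _⟩ }
    haveI : J.IsTwoSided := ⟨by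
      rintro _ c ⟨t, ht, rfl⟩
      obtain ⟨u, rfl⟩ := hπ c
      exact ⟨t * u, by rw [map_mul, ht, zero_mul], map_mul _ _ _⟩⟩
    obtain ⟨n, hn⟩ := levitzki (F := K) J (by
      rintro _ ⟨t, ht, rfl⟩
      obtain ⟨n, hn⟩ := hnil 1 (Matrix.scalar (Fin 1) t) fun s u => by
        rw [Subsingleton.elim s u]; simpa using ht
      refine ⟨n, ?_⟩
      have := hn 0 0
      rw [← map_pow] at this
      rw [← map_pow]
      exact Ideal.Quotient.eq_zero_iff_mem.2 (by simpa using this))
    let V : Submodule K (T K ⧸ I) := Submodule.span K (Set.range x)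
    have hV : V ^ (n + 1) = ⊥ := by
      rw [pow_succ, eq_bot_iff]
      refine (mul_le_mul_left ((pow_le_pow_left' (Submodule.span_le.2 ?_) n).trans hn.le) V).trans
        (by simp)
      rintro _ ⟨i, rfl⟩
      exact ⟨_, by simp [ep], rfl⟩
    let U : Submodule K (T K ⧸ I) := ⨆ k : Fin (n + 1), V ^ (k : ℕ)
    have hVU : V * U ≤ U := by
      rw [Submodule.mul_iSup]
      refine iSup_le fun k => ?_
      rw [← pow_succ']
      by_cases hk : (k : ℕ) + 1 < n + 1
      · exact le_iSup (fun k : Fin (n + 1) => V ^ (k : ℕ)) ⟨_, hk⟩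
      · rw [show (k : ℕ) + 1 = n + 1 by omega, hV]; exact bot_le
    have hU : ∀ t, ∀ u ∈ U, π t * u ∈ U := fun t => by
      induction t using FreeAlgebra.induction with
      | grade0 r => intro u hu; rw [AlgHom.commutes, ← Algebra.smul_def]; exact U.smul_mem r hu
      | grade1 i => exact fun u hu => hVU (Submodule.mul_mem_mul (Submodule.subset_span ⟨i, rfl⟩) hu)
      | mul a b ha hb => intro u hu; rw [map_mul, mul_assoc]; exact ha _ (hb u hu)
      | add a b ha hb => intro u hu; rw [map_add, add_mul]; exact U.add_mem (ha u hu) (hb u hu)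
    refine hfin ⟨?_⟩
    have hT : U = ⊤ := eq_top_iff.2 fun y _ => by
      obtain ⟨t, rfl⟩ := hπ y
      rw [← mul_one (π t)]
      exact hU t 1 (le_iSup (fun k : Fin (n + 1) => V ^ (k : ℕ)) 0 (by
        show (1 : T K ⧸ I) ∈ V ^ 0
        rw [pow_zero]
        exact Submodule.one_le.1 le_rfl))
    rw [← hT]
    have hVfg : V.FG := Submodule.fg_span (Set.finite_range x)
    exact Submodule.fg_iSup (fun k : Fin (n + 1) => V ^ (k : ℕ)) fun k => hVfg.pow k

end Pool.Agent.Results.MP_42b5d3_al.Basic
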